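import Pool.Agent.H84.SM.Targets

/-!
Board smc_modules (MP_70ba79_ag), row CHN: iteration of CBD
-/

namespace Pool.Agent.H34.SM

open Pool.Agent.H84.SM

theorem pf_CHN (hCBD : T_CBD) : T_CHN := by
  intro k _ _ _ G d hd hG hi n I τ
  induction I with
  | zero =>
    have e : τ + ((0 : ℕ) : ℤ) * d = τ := by push_cast; ring
    rw [e, Finset.sum_range_zero, Nat.add_zero]
  | succ I ih =>
    have h := hCBD k G d hd hG hi n (τ + ((I + 1 : ℕ) : ℤ) * d)
    have e : τ + ((I + 1 : ℕ) : ℤ) * d - d = τ + (I : ℤ) * d := by push_cast; ring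
    rw [e] at h
    rw [Finset.sum_range_succ]
    have e2 : ((I + 1 : ℕ) : ℤ) = (I : ℤ) + 1 := by push_cast; ring
    rw [e2] at h ⊢
    calc _ ≤ _ := h
      _ ≤ _ := Nat.add_le_add_right ih _
      _ = _ := by rw [Nat.add_assoc]

end Pool.Agent.H34.SM
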