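import Pool.Agent.H20.SM.Targets

/-!
# (CNT) few characters are equal to a conjugate or have an inverse which is a conjugate
-/

set_option autoImplicit false

open NumberField

namespace Pool.Agent.H34.SM

open Pool.Agent.H20.SM Pool.Agent.H37.CA Pool.Agent.H37.CV Pool.Agent.H28.RC Pool.Agent.H25
  Pool.Agent.H25.HK

/-- the final numerical inequality -/
lemma cntq_num (n E A : ℕ) (C ε x Q N N0 : ℝ) (hn : 1 ≤ n) (hA : 1 ≤ A) (hε : 0 < ε)
    (hx1 : 1 ≤ x) (hxE : 4 * ((E : ℝ) + 1) ≤ Real.log x) (hxC : (n : ℝ) * |C| / ε ≤ x)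
    (hQ : 1 < Q) (hlog : Real.log x ^ (A + 1) / 2 ≤ Real.log Q)
    (hN0 : N0 = Q ^ n) (hN : N0 ≤ x ^ E * N) :
    (n : ℝ) * (|C| * Q ^ ((n : ℝ) / 2)) ≤ ε * N := by
  have hx0 : 0 < x := by linarith
  have hQ0 : 0 < Q := by linarith
  have hE0 : (0 : ℝ) ≤ E := Nat.cast_nonneg _
  have hl1 : 1 ≤ Real.log x := by linarith
  have hl0 : 0 < Real.log x := by linarith
  -- `x ^ (E + 1) ≤ Q ^ (n / 2)`
  have h1 : x ^ (E + 1) ≤ Q ^ ((n : ℝ) / 2) := by
    have e1 : x ^ (E + 1) = Real.exp (((E : ℝ) + 1) * Real.log x) := by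
      rw [mul_comm, Real.exp_mul, Real.exp_log hx0, ← Real.rpow_natCast]
      push_cast
      rfl
    have e2 : Q ^ ((n : ℝ) / 2) = Real.exp (((n : ℝ) / 2) * Real.log Q) := by
      rw [mul_comm, Real.exp_mul, Real.exp_log hQ0]
    rw [e1, e2, Real.exp_le_exp]
    have e3 : Real.log x ^ 2 ≤ Real.log x ^ (A + 1) := pow_le_pow_right₀ hl1 (by omega)
    have e4 : (1 : ℝ) ≤ n := by exact_mod_cast hn
    have e5 : Real.log x ^ 2 / 2 ≤ Real.log Q := by linarith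
    have e6 : 0 ≤ Real.log Q := Real.log_nonneg hQ.le
    calc ((E : ℝ) + 1) * Real.log x ≤ (Real.log x / 4) * Real.log x :=
          mul_le_mul_of_nonneg_right (by linarith) hl0.le
      _ = (1 / 2) * (Real.log x ^ 2 / 2) := by ring
      _ ≤ (1 / 2) * Real.log Q := by linarith
      _ ≤ ((n : ℝ) / 2) * Real.log Q := mul_le_mul_of_nonneg_right (by linarith) e6
  have h2 : Q ^ n = Q ^ ((n : ℝ) / 2) * Q ^ ((n : ℝ) / 2) := by
    rw [← Real.rpow_add hQ0, ← Real.rpow_natCast]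
    congr 1
    ring
  set y : ℝ := Q ^ ((n : ℝ) / 2) with hy
  have hy0 : 0 < y := Real.rpow_pos_of_pos hQ0 _
  rw [hN0, h2] at hN
  have hxE0 : 0 < x ^ E := by positivity
  -- `n |C| x ^ E ≤ ε y`
  have h3 : (n : ℝ) * |C| * x ^ E ≤ ε * y := by
    rw [div_le_iff₀ hε] at hxC
    calc (n : ℝ) * |C| * x ^ E ≤ (x * ε) * x ^ E := mul_le_mul_of_nonneg_right hxC hxE0.le
      _ = ε * x ^ (E + 1) := by ring
      _ ≤ ε * y := mul_le_mul_of_nonneg_left h1 hε.le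
  have h4 : ((n : ℝ) * (|C| * y)) * x ^ E ≤ (ε * N) * x ^ E := by
    calc ((n : ℝ) * (|C| * y)) * x ^ E = ((n : ℝ) * |C| * x ^ E) * y := by ring
      _ ≤ (ε * y) * y := mul_le_mul_of_nonneg_right h3 hy0.le
      _ = ε * (y * y) := by ring
      _ ≤ ε * (x ^ E * N) := mul_le_mul_of_nonneg_left hN hε.le
      _ = (ε * N) * x ^ E := by ring
  exact le_of_mul_le_mul_right h4 hxE0

theorem pf_CNTq (hNCR : T_NCR) (hPAR : T_PAR) (hNGNq : T_NGNq) (hNGYq : T_NGYq)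
    (hCFXq : T_CFXq) (hCFYq : T_CFYq) : T_CNTq := by
  classical
  intro F _ _ _ _ A ε hA hε
  set n : ℕ := Module.finrank ℚ F with hn
  have hn1 : 1 ≤ n := Module.finrank_pos
  obtain ⟨C₀, E, -, -, hNC⟩ := hNCR F
  obtain ⟨x₁, hx1⟩ := hNC A
  obtain ⟨x₂, hx2⟩ := hPAR F A
  obtain ⟨C, hC⟩ := hCFXq F
  obtain ⟨C', hC'⟩ := hCFYq F
  refine ⟨max (max (max x₁ x₂) (max 25 (Real.exp (4 * ((E : ℝ) + 1)))))
    (max ((n : ℝ) * |C| / ε) ((n : ℝ) * |C'| / ε)), ?_⟩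
  intro x q hx hq L _ _ _ _ β hβ
  have g1 : x₁ ≤ x := ((le_max_left _ _).trans ((le_max_left _ _).trans (le_max_left _ _))).trans hx
  have g2 : x₂ ≤ x := ((le_max_right _ _).trans ((le_max_left _ _).trans (le_max_left _ _))).trans hx
  have g3 : (25 : ℝ) ≤ x :=
    ((le_max_left _ _).trans ((le_max_right _ _).trans (le_max_left _ _))).trans hx
  have g4 : Real.exp (4 * ((E : ℝ) + 1)) ≤ x :=
    ((le_max_right _ _).trans ((le_max_right _ _).trans (le_max_left _ _))).trans hx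
  have g5 : (n : ℝ) * |C| / ε ≤ x := ((le_max_left _ _).trans (le_max_right _ _)).trans hx
  have g6 : (n : ℝ) * |C'| / ε ≤ x := ((le_max_right _ _).trans (le_max_right _ _)).trans hx
  have hx0 : 0 < x := by linarith
  have hlogx : 4 * ((E : ℝ) + 1) ≤ Real.log x := by
    rw [Real.le_log_iff_exp_le hx0]
    exact g4
  obtain ⟨hnc, hnm, -⟩ := hx1 x q g1 hq
  obtain ⟨hp1, -, -, hp4⟩ := hx2 x q g2 hq
  have hE0 : (0 : ℝ) ≤ E := Nat.cast_nonneg _
  have hl0 : 0 < Real.log x := by linarith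
  have hlq : 0 < Real.log q := lt_of_lt_of_le (by positivity) hp1
  have hq1 : (1 : ℝ) < q := by
    by_contra h
    rw [not_lt] at h
    have := Real.log_nonpos (Nat.cast_nonneg q) h
    linarith
  have hq2 : 2 ≤ q := by
    have : 1 < q := by exact_mod_cast hq1
    omega
  have hq0 : (0 : ℝ) < q := by linarith
  have hnmn : 0 ≤ nm (qi F q) := by
    unfold nm
    exact Nat.cast_nonneg _
  have hnm0 : 0 < nm (qi F q) := by
    rcases hnmn.lt_or_eq with h | h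
    · exact h
    · exfalso
      rw [← h, Real.log_zero] at hp4
      have : (0 : ℝ) < (Module.finrank ℚ F : ℝ) * Real.log q := by
        have : (0 : ℝ) < Module.finrank ℚ F := by exact_mod_cast hn1
        positivity
      linarith
  have hnmq : nm (qi F q) = (q : ℝ) ^ n := by
    rw [← Real.exp_log hnm0, hp4, mul_comm, Real.exp_mul, Real.exp_log hq0, ← hn,
      Real.rpow_natCast]
  have hfin : (Ch (qi F q) (qi F q)).Finite := Set.finite_of_ncard_pos hnc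
  have hbij := hβ.1
  have hp5 : ∀ p ∈ q.primeFactors, 5 ≤ p := by
    intro p hp
    have h1 := hq.low p hp
    have h2 : (5 : ℝ) ≤ Real.sqrt x := by
      rw [show (5 : ℝ) = Real.sqrt 25 by
        rw [show (25 : ℝ) = 5 ^ 2 by norm_num, Real.sqrt_sq (by norm_num)]]
      exact Real.sqrt_le_sqrt g3
    exact_mod_cast h2.trans h1
  refine ⟨?_, ?_, ?_⟩
  · have : Fintype (F ≃ₐ[ℚ] F) := Fintype.ofFinite _
    have hcardG : Fintype.card (F ≃ₐ[ℚ] F) = n := by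
      rw [← Nat.card_eq_fintype_card]
      exact IsGalois.card_aut_eq_finrank ℚ F
    set A' : (F ≃ₐ[ℚ] F) → Set (Ideal (𝓞 F) → ℂ) := fun σ =>
      {ψ | ψ ∈ Ch (qi F q) (qi F q) ∧ ∀ I : Ideal (𝓞 F), ψ (cj σ I) = ψ I} with hA'
    have hsub : (Gen (HF F L))ᶜ ⊆ β '' (⋃ σ ∈ Finset.univ.filter (fun σ : F ≃ₐ[ℚ] F => σ ≠ 1),
        A' σ) := by
      intro φ hφ
      obtain ⟨ψ, hψ, rfl⟩ := hbij.surjOn (Set.mem_univ φ)
      obtain ⟨σ, hσ, h⟩ := hNGNq F L q hq2 β hβ ψ hψ hφ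
      refine ⟨ψ, ?_, rfl⟩
      rw [Set.mem_iUnion₂]
      exact ⟨σ, by simpa using hσ, hψ, h⟩
    have hAfin : ∀ σ, (A' σ).Finite := fun σ => hfin.subset fun ψ h => h.1
    have hUfin : (⋃ σ ∈ Finset.univ.filter (fun σ : F ≃ₐ[ℚ] F => σ ≠ 1), A' σ).Finite :=
      Set.Finite.biUnion (Finset.finite_toSet _) fun σ _ => hAfin σ
    refine le_trans ?_ (cntq_num n E A C ε x q (nc (qi F q) (qi F q)) (nm (qi F q)) hn1 hA hε
      (by linarith) hlogx g5 hq1 hp1 hnmq hnm)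
    calc ((Gen (HF F L))ᶜ.ncard : ℝ)
        ≤ ((β '' (⋃ σ ∈ Finset.univ.filter (fun σ : F ≃ₐ[ℚ] F => σ ≠ 1), A' σ)).ncard : ℝ) := by
          exact_mod_cast Set.ncard_le_ncard hsub (hUfin.image β)
      _ ≤ ((⋃ σ ∈ Finset.univ.filter (fun σ : F ≃ₐ[ℚ] F => σ ≠ 1), A' σ).ncard : ℝ) := by
          exact_mod_cast Set.ncard_image_le hUfin
      _ ≤ ((∑ σ ∈ Finset.univ.filter (fun σ : F ≃ₐ[ℚ] F => σ ≠ 1), (A' σ).ncard : ℕ) : ℝ) := by
          exact_mod_cast Finset.set_ncard_biUnion_le _ _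
      _ ≤ ∑ _σ ∈ Finset.univ.filter (fun σ : F ≃ₐ[ℚ] F => σ ≠ 1),
            |C| * (q : ℝ) ^ ((n : ℝ) / 2) := by
          push_cast
          refine Finset.sum_le_sum fun σ hσ => ?_
          refine (hC q hq.sq σ (by simpa using hσ)).trans ?_
          have := le_abs_self C
          gcongr
      _ ≤ n * (|C| * (q : ℝ) ^ ((n : ℝ) / 2)) := by
          rw [Finset.sum_const, nsmul_eq_mul]
          refine mul_le_mul_of_nonneg_right ?_ (by positivity)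
          have : (Finset.univ.filter (fun σ : F ≃ₐ[ℚ] F => σ ≠ 1)).card ≤ n := by
            rw [← hcardG, ← Finset.card_univ]
            exact Finset.card_filter_le _ _
          exact_mod_cast this
  · let S : (F ≃ₐ[ℚ] F) → Set (Ideal (𝓞 F) → ℂ) := fun σ =>
      {ψ | ψ ∈ Ch (qi F q) (qi F q) ∧ ∀ I : Ideal (𝓞 F), I ≠ ⊥ → I ⊔ qi F q = ⊤ →
        ψ (cj σ I) * ψ I = 1}
    have hS : ∀ σ, (S σ).Finite := fun σ => hfin.subset fun ψ h => h.1
    have hsub : (Nsd (HF F L))ᶜ ⊆ β '' (⋃ σ, S σ) := by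
      intro φ hφ
      obtain ⟨ψ, hψ, rfl⟩ := hβ.1.surjOn (Set.mem_univ φ)
      obtain ⟨σ, hσ⟩ := hNGYq F L q hq2 β hβ ψ hψ hφ
      exact ⟨ψ, Set.mem_iUnion.2 ⟨σ, hψ, hσ⟩, rfl⟩
    have hUf : (⋃ σ, S σ).Finite := Set.finite_iUnion hS
    have h1 : ((Nsd (HF F L))ᶜ.ncard : ℝ) ≤ ∑ σ : F ≃ₐ[ℚ] F, ((S σ).ncard : ℝ) := by
      have h2 : (Nsd (HF F L))ᶜ.ncard ≤ ∑ σ : F ≃ₐ[ℚ] F, (S σ).ncard :=
        (Set.ncard_le_ncard hsub (hUf.image β)).trans ((Set.ncard_image_le hUf).trans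
          (Set.ncard_iUnion_le_of_fintype S))
      exact_mod_cast h2
    have h3 : ∑ σ : F ≃ₐ[ℚ] F, ((S σ).ncard : ℝ) ≤
        (n : ℝ) * (|C'| * (q : ℝ) ^ ((n : ℝ) / 2)) := by
      have h4 : ∀ σ ∈ (Finset.univ : Finset (F ≃ₐ[ℚ] F)), ((S σ).ncard : ℝ) ≤
          |C'| * (q : ℝ) ^ ((n : ℝ) / 2) := by
        intro σ _
        refine (hC' q hq.sq hp5 σ).trans ?_
        have := le_abs_self C'
        gcongr
      refine (Finset.sum_le_sum h4).trans ?_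
      rw [Finset.sum_const, Finset.card_univ, nsmul_eq_mul, ← Nat.card_eq_fintype_card,
        IsGalois.card_aut_eq_finrank ℚ F]
    exact h1.trans (h3.trans (cntq_num n E A C' ε x q (nc (qi F q) (qi F q)) (nm (qi F q)) hn1 hA
      hε (by linarith) hlogx g6 hq1 hp1 hnmq hnm))
  · have hcardeq : Nat.card (HF F L →* ℂˣ) = nc (qi F q) (qi F q) := by
      rw [nc, ← Set.ncard_univ, ← hbij.image_eq, Set.InjOn.ncard_image hbij.injOn]
    exact_mod_cast hcardeq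

end Pool.Agent.H34.SM
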